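import Pool.Agent.EQC.Stmts

/-! # Squad EQC, row INJ: an injection which avoids one forbidden value for every element -/

set_option autoImplicit false

namespace Pool.Agent.EQC.H24

open Pool.Agent.EQC Finset

/-- row INJ -/
theorem inj : InjStmt := by
  classical
  intro J T A B bad
  induction A using Finset.induction_on with
  | empty =>
    intro h
    have hB : 0 < B.card := by omega
    obtain ⟨b, hb⟩ := Finset.card_pos.1 hB
    refine ⟨fun _ => b, ?_, ?_, ?_⟩
    · intro j hj
      simp at hj
    · intro j hj
      simp at hj
    · intro j hj
      simp at hj
  | insert j A' hj ih =>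
    intro h
    rw [Finset.card_insert_of_notMem hj] at h
    obtain ⟨g, hg1, hg2, hg3⟩ := ih (by omega)
    -- an unused element of `B` which is not the forbidden one
    have hex : ∃ b ∈ B, b ∉ A'.image g ∧ bad j ≠ some b := by
      have h1 : (A'.image g).card ≤ A'.card := Finset.card_image_le
      have h2 : B.card - (A'.image g).card ≤ (B \ A'.image g).card := Finset.le_card_sdiff _ _
      have h3 : 1 < (B \ A'.image g).card := by omega
      obtain ⟨b, hb, b', hb', hne⟩ := Finset.one_lt_card.1 h3
      rw [Finset.mem_sdiff] at hb hb'
      by_cases hc : bad j = some b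
      · refine ⟨b', hb'.1, hb'.2, fun h4 => hne ?_⟩
        rw [hc] at h4
        exact Option.some_injective _ h4
      · exact ⟨b, hb.1, hb.2, hc⟩
    obtain ⟨b, hb, hb1, hb2⟩ := hex
    have hup : ∀ i ∈ A', Function.update g j b i = g i := by
      intro i hi
      have h4 : i ≠ j := by
        rintro rfl
        exact hj hi
      exact Function.update_of_ne h4 _ _
    refine ⟨Function.update g j b, ?_, ?_, ?_⟩
    · intro i hi
      rcases Finset.mem_insert.1 hi with h4 | h4
      · rw [h4, Function.update_self]
        exact hb
      · rw [hup i h4]
        exact hg1 i h4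
    · intro i hi
      rcases Finset.mem_insert.1 hi with h4 | h4
      · rw [h4, Function.update_self]
        exact hb2
      · rw [hup i h4]
        exact hg2 i h4
    · intro i hi k hk hik
      rcases Finset.mem_insert.1 hi with h4 | h4
      · rcases Finset.mem_insert.1 hk with h5 | h5
        · rw [h4, h5]
        · exfalso
          rw [h4, Function.update_self, hup k h5] at hik
          exact hb1 (Finset.mem_image.2 ⟨k, h5, hik.symm⟩)
      · rcases Finset.mem_insert.1 hk with h5 | h5
        · exfalso
          rw [h5, Function.update_self, hup i h4] at hik
          exact hb1 (Finset.mem_image.2 ⟨i, h4, hik⟩)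
        · rw [hup i h4, hup k h5] at hik
          exact hg3 i h4 k h5 hik

end Pool.Agent.EQC.H24
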